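import Mathlib

set_option autoImplicit false

namespace Pool.Agent.H.MP_88e1ca_an

abbrev A := Bool × Bool × ZMod 5 × ZMod 3

def out (a : A) : ZMod 3 :=
  if a.2.1 = true then
    (if a.2.2.1 = 2 then (if a.2.2.2 = 0 then 0 else 2)
     else if a.2.2.1 = 3 then (if a.2.2.2 = 2 then 2 else 0)
     else if a.2.2.1 = 4 then 1 else 0)
  else (if a.2.2.1 = 1 then a.2.2.2 else 0)

def kap (p : Bool) (c : ZMod 5) : ZMod 3 :=
  if p = true then (if c = 1 then 1 else if c = 3 then 2 else 0)
  else (if c = 0 then 1 else if c = 1 then 2 else 0)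

def P (m : ZMod 3) (a : A) : A :=
  if m = 1 then (a.1, a.2.1, a.2.2.1 + 1, a.2.2.2)
  else if m = 2 then (a.1, a.2.1, a.2.2.1, a.2.2.2 + kap a.2.1 a.2.2.1) else a

def Pi (m : ZMod 3) (a : A) : A :=
  if m = 1 then (a.1, a.2.1, a.2.2.1 - 1, a.2.2.2)
  else if m = 2 then (a.1, a.2.1, a.2.2.1, a.2.2.2 - kap a.2.1 a.2.2.1) else a

def C (m : ZMod 3) (a : A) : A :=
  (a.1, a.2.1, a.2.2.1 + 1, a.2.2.2 + m * kap a.2.1 a.2.2.1)

def Ci (m : ZMod 3) (a : A) : A :=
  (a.1, a.2.1, a.2.2.1 - 1, a.2.2.2 - m * kap a.2.1 (a.2.2.1 - 1))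

theorem Pi_P : ∀ m a, Pi m (P m a) = a := by decide +kernel
theorem P_Pi : ∀ m a, P m (Pi m a) = a := by decide +kernel
theorem Ci_C : ∀ m a, Ci m (C m a) = a := by decide +kernel
theorem C_Ci : ∀ m a, C m (Ci m a) = a := by decide +kernel
theorem P_fst : ∀ m a, (P m a).1 = a.1 := by decide +kernel
theorem Pi_fst : ∀ m a, (Pi m a).1 = a.1 := by decide +kernel
theorem C_fst (m : ZMod 3) (a : A) : (C m a).1 = a.1 := rfl
theorem Ci_fst (m : ZMod 3) (a : A) : (Ci m a).1 = a.1 := rfl

/-- one half step: cells whose flag is b and whose right neighbour has the other flag act -/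
def half (b : Bool) (Q : ZMod 3 → A → A) (x : ℕ → A) : ℕ → A := fun i =>
  if (x i).1 = b ∧ (x (i + 1)).1 = !b then Q (out (x (i + 1))) (x i) else x i

theorem half_fst (b : Bool) (Q : ZMod 3 → A → A) (hQ : ∀ m a, (Q m a).1 = a.1)
    (x : ℕ → A) (i : ℕ) : (half b Q x i).1 = (x i).1 := by
  unfold half
  split_ifs
  · exact hQ _ _
  · rfl

theorem half_half (b : Bool) (Q R : ZMod 3 → A → A) (hQ : ∀ m a, (Q m a).1 = a.1)
    (hR : ∀ m a, R m (Q m a) = a) (x : ℕ → A) : half b R (half b Q x) = x := by
  funext i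
  have h1 := half_fst b Q hQ x i
  have h2 := half_fst b Q hQ x (i + 1)
  by_cases h : (x i).1 = b ∧ (x (i + 1)).1 = !b
  · have h3 : half b Q x (i + 1) = x (i + 1) := by
      unfold half
      rw [if_neg]
      rintro ⟨h4, -⟩
      rw [h.2] at h4
      cases b <;> simp at h4
    have h4 : half b Q x i = Q (out (x (i + 1))) (x i) := by
      unfold half
      rw [if_pos h]
    show (if (half b Q x i).1 = b ∧ (half b Q x (i + 1)).1 = !b then
      R (out (half b Q x (i + 1))) (half b Q x i) else half b Q x i) = x i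
    rw [h1, h2, if_pos h, h3, h4, hR]
  · show (if (half b Q x i).1 = b ∧ (half b Q x (i + 1)).1 = !b then
      R (out (half b Q x (i + 1))) (half b Q x i) else half b Q x i) = x i
    rw [h1, h2, if_neg h]
    unfold half
    rw [if_neg h]

def f (x : ℕ → A) : ℕ → A := half true C (half false P x)
def g (x : ℕ → A) : ℕ → A := half false Pi (half true Ci x)

theorem g_f (x : ℕ → A) : g (f x) = x := by
  unfold f g
  rw [half_half true C Ci C_fst Ci_C, half_half false P Pi P_fst Pi_P]

theorem f_g (x : ℕ → A) : f (g x) = x := by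
  unfold f g
  rw [half_half false Pi P Pi_fst P_Pi, half_half true Ci C Ci_fst C_Ci]

theorem f_inj : Function.Injective f := Function.LeftInverse.injective g_f

theorem f_fst (x : ℕ → A) (i : ℕ) : (f x i).1 = (x i).1 := by
  unfold f
  rw [half_fst _ _ C_fst, half_fst _ _ P_fst]

theorem g_fst (x : ℕ → A) (i : ℕ) : (g x i).1 = (x i).1 := by
  unfold g
  rw [half_fst _ _ Pi_fst, half_fst _ _ Ci_fst]

theorem it_fst (n : ℕ) (x : ℕ → A) (i : ℕ) : (f^[n] x i).1 = (x i).1 := by
  induction n with
  | zero => rfl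
  | succ n ih => rw [Function.iterate_succ_apply', f_fst, ih]

def sh (x : ℕ → A) : ℕ → A := fun i => x (i + 1)

theorem f_sh (x : ℕ → A) : f (sh x) = sh (f x) := rfl
theorem g_sh (x : ℕ → A) : g (sh x) = sh (g x) := rfl

theorem it_sh (n : ℕ) (x : ℕ → A) : f^[n] (sh x) = sh (f^[n] x) := by
  induction n with
  | zero => rfl
  | succ n ih => rw [Function.iterate_succ_apply', Function.iterate_succ_apply', ih, f_sh]

def Ag (m : ℕ) (x y : ℕ → A) : Prop := ∀ i < m, x i = y i

theorem Ag.mono {m n : ℕ} {x y : ℕ → A} (h : Ag n x y) (hmn : m ≤ n) : Ag m x y :=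
  fun i hi => h i (by omega)

theorem Ag.symm {m : ℕ} {x y : ℕ → A} (h : Ag m x y) : Ag m y x :=
  fun i hi => (h i hi).symm

theorem Ag.trans {m : ℕ} {x y z : ℕ → A} (h : Ag m x y) (h' : Ag m y z) : Ag m x z :=
  fun i hi => (h i hi).trans (h' i hi)

theorem half_ag (b : Bool) (Q : ZMod 3 → A → A) {m : ℕ} {x y : ℕ → A}
    (h : Ag (m + 1) x y) : Ag m (half b Q x) (half b Q y) := by
  intro i hi
  unfold half
  rw [h i (by omega), h (i + 1) (by omega)]

theorem f_ag {m : ℕ} {x y : ℕ → A} (h : Ag (m + 2) x y) : Ag m (f x) (f y) :=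
  half_ag _ _ (half_ag _ _ h)

theorem g_ag {m : ℕ} {x y : ℕ → A} (h : Ag (m + 2) x y) : Ag m (g x) (g y) :=
  half_ag _ _ (half_ag _ _ h)

theorem it_ag (n : ℕ) : ∀ {m : ℕ} {x y : ℕ → A}, Ag (m + 2 * n) x y →
    Ag m (f^[n] x) (f^[n] y) := by
  induction n with
  | zero => intro m x y h; exact h
  | succ n ih =>
    intro m x y h
    rw [Function.iterate_succ_apply', Function.iterate_succ_apply']
    exact f_ag (ih (h.mono (by omega)))

theorem it_ag_rev (n : ℕ) : ∀ {m : ℕ} {x y : ℕ → A}, Ag (m + 2 * n) (f^[n] x) (f^[n] y) →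
    Ag m x y := by
  induction n with
  | zero => intro m x y h; exact h
  | succ n ih =>
    intro m x y h
    rw [Function.iterate_succ_apply', Function.iterate_succ_apply'] at h
    apply ih
    have := g_ag (m := m + 2 * n) (h.mono (by omega))
    rwa [g_f, g_f] at this

theorem sh_ag {m : ℕ} {x y : ℕ → A} (h : Ag (m + 1) x y) : Ag m (sh x) (sh y) :=
  fun i hi => h (i + 1) (by omega)

def Alt (x : ℕ → A) : Prop := ∀ i, (x (i + 1)).1 = !(x i).1

theorem Alt.sh {x : ℕ → A} (h : Alt x) : Alt (sh x) := fun i => h (i + 1)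
theorem Alt.f {x : ℕ → A} (h : Alt x) : Alt (f x) := fun i => by rw [f_fst, f_fst, h]
theorem Alt.g {x : ℕ → A} (h : Alt x) : Alt (g x) := fun i => by rw [g_fst, g_fst, h]
theorem Alt.it {x : ℕ → A} (h : Alt x) (n : ℕ) : Alt (H.MP_88e1ca_an.f^[n] x) :=
  fun i => by rw [it_fst, it_fst, h]

def inter (E O : ℕ → A) : ℕ → A := fun p => if p % 2 = 0 then E (p / 2) else O (p / 2)

theorem inter_even (E O : ℕ → A) (i : ℕ) : inter E O (2 * i) = E i := by
  unfold inter
  rw [if_pos (by omega), show 2 * i / 2 = i by omega]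

theorem inter_odd (E O : ℕ → A) (i : ℕ) : inter E O (2 * i + 1) = O i := by
  unfold inter
  rw [if_neg (by omega), show (2 * i + 1) / 2 = i by omega]

theorem inter_even' (E O : ℕ → A) (i : ℕ) : inter E O (2 * i + 1 + 1) = E (i + 1) := by
  rw [show 2 * i + 1 + 1 = 2 * (i + 1) by ring, inter_even]

theorem ext2 {x y : ℕ → A} (h0 : ∀ i, x (2 * i) = y (2 * i))
    (h1 : ∀ i, x (2 * i + 1) = y (2 * i + 1)) : x = y := by
  funext p
  rcases Nat.even_or_odd' p with ⟨i, rfl | rfl⟩
  · exact h0 i
  · exact h1 i

theorem f_inter (E O : ℕ → A) (hE : ∀ i, (E i).1 = false) (hO : ∀ i, (O i).1 = true) :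
    f (inter E O) = inter (fun i => P (out (O i)) (E i))
      (fun i => C (out (P (out (O (i + 1))) (E (i + 1)))) (O i)) := by
  have h1 : half false P (inter E O) = inter (fun i => P (out (O i)) (E i)) O := by
    apply ext2
    · intro i
      unfold half
      simp only [inter_even, inter_odd, hE, hO]
      simp
    · intro i
      unfold half
      simp only [inter_even', inter_odd, hE, hO]
      simp
  unfold f
  rw [h1]
  apply ext2
  · intro i
    unfold half
    simp only [inter_even, inter_odd, hE, hO, P_fst]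
    simp
  · intro i
    unfold half
    simp only [inter_even', inter_odd, hE, hO, P_fst]
    simp

def low (a : A) : A := (false, a.2)

def th (y : ℕ → A) : ℕ → A := inter (fun i => low (y i)) (fun i => (true, (y i).1, 0, 0))

theorem th_alt (y : ℕ → A) : Alt (th y) := by
  intro p
  rcases Nat.even_or_odd' p with ⟨i, rfl | rfl⟩
  · unfold th; rw [inter_even, inter_odd]; rfl
  · unfold th; rw [inter_even', inter_odd]; rfl

theorem th_sh (y : ℕ → A) : sh (sh (th y)) = th (sh y) := by
  apply ext2
  · intro i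
    show th y (2 * i + 1 + 1) = _
    unfold th
    rw [inter_even', inter_even]; rfl
  · intro i
    show th y (2 * i + 1 + 1 + 1) = _
    unfold th
    rw [show 2 * i + 1 + 1 + 1 = 2 * (i + 1) + 1 by ring, inter_odd, inter_odd]; rfl

theorem th_ag {m : ℕ} {x y : ℕ → A} (h : Ag m x y) : Ag (2 * m) (th x) (th y) := by
  intro p hp
  unfold th inter
  simp only [h (p / 2) (by omega)]

theorem th_ag_rev {m : ℕ} {x y : ℕ → A} (h : Ag (2 * m) (th x) (th y)) : Ag m x y := by
  intro i hi
  have h0 := h (2 * i) (by omega)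
  have h1 := h (2 * i + 1) (by omega)
  unfold th at h0 h1
  rw [inter_even, inter_even] at h0
  rw [inter_odd, inter_odd] at h1
  simp only [low, Prod.mk.injEq, true_and, and_true] at h0 h1
  exact Prod.ext h1 h0

theorem out_low : ∀ a, out (low a) = out a := by decide +kernel
theorem P_low : ∀ m a, P m (low a) = low (P m a) := by decide +kernel
theorem P_zero (a : A) : P 0 a = a := by
  revert a; decide +kernel
theorem PPP : ∀ m a, P 1 (P (if m = 2 then 2 else 0) (P (if m = 0 then 0 else 2) (low a)))
    = low (C m a) := by decide +kernel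

theorem key (y : ℕ → A) (hy : Alt y) : f^[5] (th y) = th (f y) := by
  -- z is y after the first half step
  set z := half false P y with hz
  have hz1 : ∀ i, (y i).1 = true → z i = y i := by
    intro i hi
    rw [hz]; unfold half; rw [if_neg]; rw [hi]; simp
  have hz0 : ∀ i, (y i).1 = false → z i = P (out (y (i + 1))) (y i) := by
    intro i hi
    rw [hz]; unfold half; rw [if_pos]; rw [hy, hi]; simp
  have hzf : ∀ i, (z i).1 = (y i).1 := half_fst _ _ P_fst y
  have hf1 : ∀ i, (y i).1 = true → f y i = C (out (z (i + 1))) (y i) := by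
    intro i hi
    unfold f; rw [← hz]; unfold half; rw [if_pos, hz1 i hi]
    rw [hzf, hzf, hy, hi]; simp
  have hf0 : ∀ i, (y i).1 = false → f y i = z i := by
    intro i hi
    unfold f; rw [← hz]; unfold half; rw [if_neg]
    rw [hzf, hi]; simp
  have hn1 : ∀ i, (y i).1 = true → (y (i + 1)).1 = false := fun i hi => by rw [hy, hi]; rfl
  have hn0 : ∀ i, (y i).1 = false → (y (i + 1)).1 = true := fun i hi => by rw [hy, hi]; rfl
  have s1 : f (th y) = inter (fun i => low (y i))
      (fun i => (true, (y i).1, 1, if (y i).1 = true then 0 else out (y (i + 1)))) := by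
    unfold th
    rw [f_inter _ _ (fun _ => rfl) (fun _ => rfl)]
    have o : ∀ b : Bool, out (true, b, 0, 0) = 0 := by decide +kernel
    have c : ∀ (b : Bool) (m : ZMod 3), C m (true, b, 0, 0)
      = (true, b, 1, if b = true then 0 else m) := by decide +kernel
    simp only [o, P_zero, c, out_low]
  have s2 : f (f (th y)) = inter (fun i => low (z i))
      (fun i => (true, (y i).1, 2, if (y i).1 = true then out (z (i + 1)) else 0)) := by
    rw [s1, f_inter _ _ (fun _ => rfl) (fun _ => rfl)]
    have o : ∀ (b : Bool) (m : ZMod 3), out (true, b, 1, if b = true then 0 else m)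
      = if b = true then 0 else m := by decide +kernel
    have e : ∀ i, P (if (y i).1 = true then 0 else out (y (i + 1))) (low (y i)) = low (z i) := by
      intro i
      cases hi : (y i).1
      · rw [hz0 i hi, ← P_low]; simp
      · rw [hz1 i hi]; simp [P_zero]
    simp only [o, e, out_low]
    congr 1
    funext i
    cases hi : (y i).1
    · rw [hz1 (i + 1) (hn0 i hi)]
      generalize out (y (i + 1)) = m
      revert m; decide +kernel
    · generalize out (z (i + 1)) = m
      generalize out (y (i + 1)) = m'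
      revert m m'; decide +kernel
  have s3 : f (f (f (th y))) = inter
      (fun i => if (y i).1 = true then P (if out (z (i + 1)) = 0 then 0 else 2) (low (z i))
        else low (z i))
      (fun i => (true, (y i).1, 3, if (y i).1 = true then out (z (i + 1)) else 0)) := by
    rw [s2, f_inter _ _ (fun _ => rfl) (fun _ => rfl)]
    have o : ∀ (b : Bool) (m : ZMod 3), out (true, b, 2, if b = true then m else 0)
      = if b = true then (if m = 0 then 0 else 2) else 0 := by decide +kernel
    have c : ∀ (b : Bool) (m m' : ZMod 3), C m (true, b, 2, m') = (true, b, 3, m') := by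
      decide +kernel
    simp only [o, c]
    congr 1
    funext i
    cases hi : (y i).1
    · simp [P_zero]
    · simp
  have s4 : f (f (f (f (th y)))) = inter
      (fun i => if (y i).1 = true then P (if out (z (i + 1)) = 2 then 2 else 0)
          (P (if out (z (i + 1)) = 0 then 0 else 2) (low (z i)))
        else low (z i))
      (fun i => (true, (y i).1, 4, 0)) := by
    rw [s3, f_inter _ _ (fun i => by split_ifs <;> simp [P_fst, low]) (fun _ => rfl)]
    have o : ∀ (b : Bool) (m : ZMod 3), out (true, b, 3, if b = true then m else 0)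
      = if b = true then (if m = 2 then 2 else 0) else 0 := by decide +kernel
    simp only [o]
    congr 1
    · funext i
      cases hi : (y i).1
      · simp [P_zero]
      · simp
    · funext i
      cases hi : (y i).1
      · generalize out (P _ _) = m
        generalize out (z (i + 1)) = m'
        revert m m'; decide +kernel
      · rw [hn1 i hi]
        simp only [Bool.false_eq_true, if_false, P_zero, out_low]
        generalize out (z (i + 1)) = m'
        revert m'; decide +kernel
  show f (f (f (f (f (th y))))) = _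
  rw [s4, f_inter _ _ (fun i => by split_ifs <;> simp [P_fst, low]) (fun _ => rfl)]
  have o : ∀ (b : Bool), out (true, b, 4, 0) = if b = true then 1 else 0 := by decide +kernel
  have c : ∀ (b : Bool) (m : ZMod 3), C m (true, b, 4, 0) = (true, b, 0, 0) := by
    decide +kernel
  simp only [o, c]
  unfold th
  congr 1
  · funext i
    cases hi : (y i).1
    · rw [hf0 i hi]; simp [P_zero]
    · rw [hf1 i hi, hz1 i hi, ← PPP]; simp
  · funext i
    rw [f_fst]

theorem key_it (N : ℕ) (y : ℕ → A) (hy : Alt y) : f^[5 * N] (th y) = th (f^[N] y) := by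
  induction N with
  | zero => rfl
  | succ N ih =>
    rw [show 5 * (N + 1) = 5 + 5 * N by ring, Function.iterate_add_apply, ih, key _ (hy.it N),
      Function.iterate_succ_apply']

theorem clock1 (x : ℕ → A) (hx : Alt x) (i : ℕ) (hi : (x i).1 = true) :
    (f x i).2.2.1 = (x i).2.2.1 + 1 := by
  have h1 : half false P x i = x i := by
    unfold half; rw [if_neg]; rw [hi]; simp
  have hzf := half_fst false P P_fst x
  unfold f
  generalize half false P x = z at h1 hzf
  unfold half
  rw [if_pos, h1]
  · rfl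
  · rw [hzf, hzf, hx, hi]; simp

theorem clock (n : ℕ) (x : ℕ → A) (hx : Alt x) (i : ℕ) (hi : (x i).1 = true) :
    (f^[n] x i).2.2.1 = (x i).2.2.1 + n := by
  induction n with
  | zero => simp
  | succ n ih =>
    rw [Function.iterate_succ_apply', clock1 _ (hx.it n) i (by rw [it_fst, hi]), ih]
    push_cast; ring

theorem th_one (y : ℕ → A) : th y 1 = (true, (y 0).1, 0, 0) := inter_odd _ _ 0
theorem th_zero (y : ℕ → A) : (th y 0).1 = false := rfl

theorem clock_th (n : ℕ) (y : ℕ → A) : (f^[n] (th y) 1).2.2.1 = n := by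
  rw [clock n _ (th_alt y) 1 (by rw [th_one]), th_one]; simp

end Pool.Agent.H.MP_88e1ca_an
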