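import Pool.Agent.H.MP_88e1ca_an.A

set_option autoImplicit false

namespace Pool.Agent.H.MP_88e1ca_an

def Y : ℕ → Set (ℕ → A)
  | 0 => {x | Alt x}
  | k + 1 => {x | ∃ y ∈ Y k, ∃ t < 5, x = f^[t] (th y) ∨ x = sh (f^[t] (th y))}

theorem Y_alt : ∀ (k : ℕ) {x : ℕ → A}, x ∈ Y k → Alt x
  | 0, _, h => h
  | k + 1, x, h => by
    obtain ⟨y, -, t, -, rfl | rfl⟩ := h
    · exact (th_alt y).it t
    · exact ((th_alt y).it t).sh

theorem Y_sh : ∀ (k : ℕ) {x : ℕ → A}, x ∈ Y k → sh x ∈ Y k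
  | 0, _, h => Alt.sh h
  | k + 1, x, h => by
    obtain ⟨y, hy, t, ht, rfl | rfl⟩ := h
    · exact ⟨y, hy, t, ht, Or.inr rfl⟩
    · refine ⟨sh y, Y_sh k hy, t, ht, Or.inl ?_⟩
      rw [← th_sh, it_sh, it_sh]

theorem Y_f : ∀ (k : ℕ) {x : ℕ → A}, x ∈ Y k → f x ∈ Y k
  | 0, _, h => Alt.f h
  | k + 1, x, h => by
    obtain ⟨y, hy, t, ht, h⟩ := h
    have h5 : ∃ y' ∈ Y k, ∃ t' < 5, f (f^[t] (th y)) = f^[t'] (th y') := by
      by_cases h4 : t = 4
      · subst h4
        refine ⟨f y, Y_f k hy, 0, by norm_num, ?_⟩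
        rw [← Function.iterate_succ_apply' f 4, key y (Y_alt k hy)]; rfl
      · exact ⟨y, hy, t + 1, by omega, (Function.iterate_succ_apply' f t _).symm⟩
    obtain ⟨y', hy', t', ht', e⟩ := h5
    refine ⟨y', hy', t', ht', ?_⟩
    rcases h with rfl | rfl
    · exact Or.inl e
    · right; rw [f_sh, e]

theorem Y_g : ∀ (k : ℕ) {x : ℕ → A}, x ∈ Y k → g x ∈ Y k
  | 0, _, h => Alt.g h
  | k + 1, x, h => by
    obtain ⟨y, hy, t, ht, h⟩ := h
    have h5 : ∃ y' ∈ Y k, ∃ t' < 5, g (f^[t] (th y)) = f^[t'] (th y') := by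
      rcases t with _ | t
      · refine ⟨g y, Y_g k hy, 4, by norm_num, ?_⟩
        have := key (g y) (Y_alt k hy).g
        rw [f_g, Function.iterate_succ_apply' f 4] at this
        show g (th y) = _
        rw [← this, g_f]
      · refine ⟨y, hy, t, by omega, ?_⟩
        rw [Function.iterate_succ_apply', g_f]
    obtain ⟨y', hy', t', ht', e⟩ := h5
    refine ⟨y', hy', t', ht', ?_⟩
    rcases h with rfl | rfl
    · exact Or.inl e
    · right; rw [g_sh, e]

theorem Y_it (k n : ℕ) {x : ℕ → A} (h : x ∈ Y k) : f^[n] x ∈ Y k := by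
  induction n with
  | zero => exact h
  | succ n ih => rw [Function.iterate_succ_apply']; exact Y_f k ih

theorem cast_inj {t t' : ℕ} (ht : t < 5) (ht' : t' < 5) (h : (t : ZMod 5) = t') : t = t' := by
  have := (ZMod.natCast_eq_natCast_iff' t t' 5).1 h
  omega

theorem split_it (t n : ℕ) (y : ℕ → A) (hy : Alt y) :
    f^[n] (f^[t] (th y)) = f^[(n + t) % 5] (th (f^[(n + t) / 5] y)) := by
  rw [← key_it _ _ hy, ← Function.iterate_add_apply, ← Function.iterate_add_apply]
  congr 1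
  omega

theorem arith (K m c c' n N r j : ℕ) (hK : 1 ≤ K) (hc : c' = 2 * c + 24)
    (hN : 5 * N ≤ n + 4) (hj : r ≤ 2 * j + 10)
    (h : K * 2 * (m + c') + 2 * n ≤ K * 2 * r) :
    K * (m / 2 + 5 + c) + 2 * N ≤ K * j := by
  have h1 : K * (2 * (m / 2 + 5 + c)) ≤ K * (m + 10 + 2 * c) :=
    Nat.mul_le_mul_left _ (by omega)
  have h2 : K * r ≤ K * (2 * j + 10) := Nat.mul_le_mul_left _ hj
  subst hc
  nlinarith

theorem rad (k : ℕ) : ∃ c : ℕ, ∀ n m r : ℕ, ∀ x ∈ Y k, ∀ y ∈ Y k,
    2 ^ k * (m + c) + 2 * n ≤ 2 ^ k * r → Ag r x y → Ag m (f^[n] x) (f^[n] y) := by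
  induction k with
  | zero =>
    refine ⟨0, fun n m r x _ y _ h ha => it_ag n (ha.mono (by omega))⟩
  | succ k ih =>
    obtain ⟨c, hc⟩ := ih
    refine ⟨2 * c + 24, fun n m r x hx y hy h ha => ?_⟩
    have hK : 1 ≤ 2 ^ k := Nat.one_le_two_pow
    rw [pow_succ] at h
    have hr : 24 ≤ r := by
      by_contra hlt
      have : 2 ^ k * 2 * r ≤ 2 ^ k * 2 * 23 := Nat.mul_le_mul_left _ (by omega)
      nlinarith [Nat.zero_le (2 ^ k * m), Nat.zero_le (2 ^ k * c)]
    obtain ⟨u, hu, t, ht, hx⟩ := hx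
    obtain ⟨v, hv, s, hs, hy⟩ := hy
    have hua := Y_alt k hu
    have hva := Y_alt k hv
    have a0 := ha 0 (by omega)
    have a1 := ha 1 (by omega)
    rcases hx with rfl | rfl <;> rcases hy with rfl | rfl
    · have hts : t = s := by
        apply cast_inj ht hs
        rw [← clock_th t u, ← clock_th s v, a1]
      subst hts
      have b1 : Ag (2 * ((r - 9) / 2)) (th u) (th v) := it_ag_rev t (ha.mono (by omega))
      have b2 := hc ((n + t) / 5) (m / 2 + 5) _ u hu v hv
        (arith _ m c _ n _ r _ hK rfl (by omega) (by omega) h) (th_ag_rev b1)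
      rw [split_it t n u hua, split_it t n v hva]
      exact it_ag _ ((th_ag b2).mono (by omega))
    · exfalso
      have := congrArg Prod.fst a0
      unfold sh at this
      rw [it_fst, it_fst, th_zero, zero_add, th_one] at this
      simp at this
    · exfalso
      have := congrArg Prod.fst a0
      unfold sh at this
      rw [it_fst, it_fst, th_zero, zero_add, th_one] at this
      simp at this
    · have hts : t = s := by
        apply cast_inj ht hs
        rw [← clock_th t u, ← clock_th s v]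
        exact congrArg (fun a : A => a.2.2.1) a0
      subst hts
      rw [← it_sh, ← it_sh] at ha
      have b0 : Ag (2 * ((r - 9) / 2) + 1) (sh (th u)) (sh (th v)) :=
        it_ag_rev t (ha.mono (by omega))
      have b1 := sh_ag b0
      rw [th_sh, th_sh] at b1
      have b2 := hc ((n + t) / 5) (m / 2 + 5) _ _ (Y_sh k hu) _ (Y_sh k hv)
        (arith _ m c _ n _ r _ hK rfl (by omega) (by omega) h) (th_ag_rev b1)
      rw [it_sh, it_sh] at b2
      rw [it_sh, it_sh, split_it t n u hua, split_it t n v hva, ← it_sh, ← it_sh]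
      have hu' := hua.it ((n + t) / 5)
      have hv' := hva.it ((n + t) / 5)
      generalize f^[(n + t) / 5] u = u' at b2 hu'
      generalize f^[(n + t) / 5] v = v' at b2 hv'
      have b3 := th_ag b2
      rw [← th_sh, ← th_sh] at b3
      have b4 : Ag (2 * (m / 2 + 5) + 1) (sh (th u')) (sh (th v')) := by
        intro i hi
        rcases i with _ | i
        · show th u' 1 = th v' 1
          have e1 : u' 1 = v' 1 := b2 0 (by omega)
          have e2 := hu' 0
          have e3 := hv' 0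
          rw [zero_add] at e2 e3
          rw [e1, e3] at e2
          rw [th_one, th_one, Bool.not_inj e2]
        · exact b3 i (by omega)
      exact it_ag _ (b4.mono (by omega))

def X : Set (ℕ → A) := {x | ∀ k m : ℕ, ∃ y ∈ Y k, Ag m y x}

theorem X_closed (x : ℕ → A) (h : ∀ m : ℕ, ∃ y ∈ X, ∀ i < m, y i = x i) : x ∈ X := by
  intro k m
  obtain ⟨y, hy, h1⟩ := h m
  obtain ⟨z, hz, h2⟩ := hy k m
  exact ⟨z, hz, h2.trans h1⟩

theorem X_sh {x : ℕ → A} (h : x ∈ X) : sh x ∈ X := by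
  intro k m
  obtain ⟨z, hz, h2⟩ := h k (m + 1)
  exact ⟨sh z, Y_sh k hz, sh_ag h2⟩

theorem X_f {x : ℕ → A} (h : x ∈ X) : f x ∈ X := by
  intro k m
  obtain ⟨z, hz, h2⟩ := h k (m + 2)
  exact ⟨f z, Y_f k hz, f_ag h2⟩

theorem X_g {x : ℕ → A} (h : x ∈ X) : g x ∈ X := by
  intro k m
  obtain ⟨z, hz, h2⟩ := h k (m + 2)
  exact ⟨g z, Y_g k hz, g_ag h2⟩

theorem X_alt {x : ℕ → A} (h : x ∈ X) : Alt x := by
  intro i
  obtain ⟨z, hz, h2⟩ := h 0 (i + 2)
  rw [← h2 i (by omega), ← h2 (i + 1) (by omega)]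
  exact hz i

theorem X_th {x : ℕ → A} (h : x ∈ X) : th x ∈ X := by
  intro k m
  rcases k with _ | k
  · exact ⟨th x, th_alt x, fun _ _ => rfl⟩
  · obtain ⟨z, hz, h2⟩ := h k m
    exact ⟨th z, ⟨z, hz, 0, by norm_num, Or.inl rfl⟩, (th_ag h2).mono (by omega)⟩

theorem X_ne : ∃ x, x ∈ X := by
  let a : ℕ → A := fun p => if p % 2 = 0 then (false, false, 0, 0) else (true, false, 0, 0)
  let s : ℕ → ℕ → A := fun j => th^[j] a
  have h1 : ∀ j, Ag (j + 1) (s j) (s (j + 1)) := by
    intro j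
    induction j with
    | zero =>
      intro i hi
      obtain rfl : i = 0 := by omega
      rfl
    | succ j ih =>
      have e1 : s (j + 1) = th (s j) := Function.iterate_succ_apply' th j a
      have e2 : s (j + 1 + 1) = th (s (j + 1)) := Function.iterate_succ_apply' th (j + 1) a
      have := (th_ag ih).mono (show j + 1 + 1 ≤ 2 * (j + 1) by omega)
      rw [← e1, ← e2] at this
      exact this
  have h2 : ∀ d j, Ag (j + 1) (s j) (s (j + d)) := by
    intro d j
    induction d with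
    | zero => exact fun _ _ => rfl
    | succ d ih => exact ih.trans ((h1 (j + d)).mono (by omega))
  have h3 : ∀ k d, s (k + d) ∈ Y k := by
    intro k
    induction k with
    | zero =>
      intro d
      rcases d with _ | d
      · intro i
        show (a (i + 1)).1 = !(a i).1
        simp only [a]
        split_ifs <;> first | rfl | omega
      · have e1 : s (0 + (d + 1)) = th (s d) := by
          rw [zero_add]; exact Function.iterate_succ_apply' th d a
        rw [e1]; exact th_alt _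
    | succ k ih =>
      intro d
      have e1 : s (k + 1 + d) = th (s (k + d)) := by
        rw [show k + 1 + d = (k + d) + 1 by ring]; exact Function.iterate_succ_apply' th _ a
      exact ⟨s (k + d), ih d, 0, by norm_num, Or.inl e1⟩
  refine ⟨fun i => s i i, fun k m => ⟨s (k + m), h3 k m, fun i hi => ?_⟩⟩
  have := h2 (k + m - i) i i (by omega)
  rw [show i + (k + m - i) = k + m by omega] at this
  exact this.symm

theorem no_period (p : ℕ) : 0 < p → ¬ ∀ x ∈ X, f^[p] x = x := by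
  induction p using Nat.strong_induction_on with
  | _ p ih =>
    intro hp h
    obtain ⟨x0, hx0⟩ := X_ne
    have h1 := clock_th p x0
    rw [h _ (X_th hx0), th_one] at h1
    have h2 : 5 ∣ p := (ZMod.natCast_eq_zero_iff p 5).1 h1.symm
    obtain ⟨q, rfl⟩ := h2
    refine ih q (by omega) (by omega) fun x hx => ?_
    have h3 := h _ (X_th hx)
    rw [key_it q x (X_alt hx)] at h3
    funext i
    exact th_ag_rev (m := i + 1) (fun j _ => congrFun h3 j) i (by omega)

theorem X_shn {x : ℕ → A} (h : x ∈ X) (j : ℕ) : sh^[j] x ∈ X := by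
  induction j with
  | zero => exact h
  | succ j ih => rw [Function.iterate_succ_apply']; exact X_sh ih

theorem it_shn (n j : ℕ) (x : ℕ → A) : f^[n] (sh^[j] x) 0 = f^[n] x j := by
  induction j generalizing x with
  | zero => rfl
  | succ j ih => rw [Function.iterate_succ_apply, ih, it_sh]; rfl

theorem unbounded (R : ℕ) : ∃ n : ℕ, ∃ x ∈ X, ∃ y ∈ X,
    (∀ i ≤ R, x i = y i) ∧ f^[n] x 0 ≠ f^[n] y 0 := by
  by_contra hcon
  push Not at hcon
  let F : ℕ → Set ((Fin (R + 1) → A) × A) := fun n =>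
    {q | ∃ x ∈ X, (∀ i : Fin (R + 1), x i = q.1 i) ∧ f^[n] x 0 = q.2}
  obtain ⟨n, m, hnm, hF⟩ := Finite.exists_ne_map_eq_of_infinite F
  have hgen : ∀ n m, F n = F m → ∀ x ∈ X, f^[n] x = f^[m] x := by
    intro n m hF x hx
    funext j
    rw [← it_shn n, ← it_shn m]
    have hx' := X_shn hx j
    generalize sh^[j] x = z at hx'
    have : ((fun i : Fin (R + 1) => z i), f^[n] z 0) ∈ F n := ⟨z, hx', fun _ => rfl, rfl⟩
    rw [hF] at this
    obtain ⟨w, hw, h1, h2⟩ := this
    have h3 := hcon m w hw z hx' (fun i hi => h1 ⟨i, by omega⟩)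
    exact h2.symm.trans h3
  wlog hlt : n < m generalizing n m
  · exact this m n hnm.symm hF.symm (by omega)
  refine no_period (m - n) (by omega) fun x hx => ?_
  have h1 := hgen n m hF x hx
  rw [show m = n + (m - n) by omega, Function.iterate_add_apply] at h1
  exact (f_inj.iterate n h1).symm

theorem sublinear (ε : ℝ) (hε : 0 < ε) : ∃ N : ℕ, ∀ n ≥ N, ∃ r : ℕ, (r : ℝ) ≤ ε * n ∧
    ∀ x ∈ X, ∀ y ∈ X, (∀ i ≤ r, x i = y i) → f^[n] x 0 = f^[n] y 0 := by
  obtain ⟨k, hk⟩ := pow_unbounded_of_one_lt (4 / ε) (show (1 : ℝ) < 2 by norm_num)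
  obtain ⟨c, hc⟩ := rad k
  obtain ⟨N, hN⟩ := exists_nat_ge (2 * ((c : ℝ) + 1) / ε)
  refine ⟨N, fun n hn => ⟨c + 1 + 2 * n / 2 ^ k, ?_, fun x hx y hy h => ?_⟩⟩
  · have h1 : ((2 * n / 2 ^ k : ℕ) : ℝ) ≤ (2 * n : ℕ) / (2 ^ k : ℕ) := Nat.cast_div_le
    have h2 : (0 : ℝ) < 2 ^ k := by positivity
    have h3 : (N : ℝ) ≤ n := by exact_mod_cast hn
    have h4 : (0 : ℝ) ≤ n := by positivity
    rw [div_lt_iff₀ hε] at hk
    rw [div_le_iff₀ hε] at hN
    push_cast at h1 ⊢
    have h5 : 2 * (n : ℝ) / 2 ^ k ≤ ε * n / 2 := by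
      rw [div_le_iff₀ h2]
      nlinarith
    nlinarith
  · set r := c + 1 + 2 * n / 2 ^ k with hr
    obtain ⟨x', hx', h1⟩ := hx k (r + 2 + 2 * n)
    obtain ⟨y', hy', h2⟩ := hy k (r + 2 + 2 * n)
    have h0 : Ag (r + 1) x y := fun i hi => h i (by omega)
    have h3 : Ag (r + 1) x' y' :=
      ((h1.mono (by omega)).trans h0).trans (h2.mono (by omega)).symm
    have hK : 0 < 2 ^ k := by positivity
    have h4 : 2 ^ k * (1 + c) + 2 * n ≤ 2 ^ k * (r + 1) := by
      have := Nat.lt_mul_div_succ (2 * n) hK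
      rw [hr]
      nlinarith
    clear_value r
    clear hr
    have h5 := hc n 1 _ x' hx' y' hy' h4 h3 0 (by omega)
    have h6 := it_ag n (m := 1) (h1.mono (by omega)) 0 (by omega)
    have h7 := it_ag n (m := 1) (h2.mono (by omega)) 0 (by omega)
    rw [← h6, ← h7, h5]

end Pool.Agent.H.MP_88e1ca_an
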